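import Pool.Agent.H84.FK.Targets3

/-! # NC2: no least counterexample with both factors nonabelian -/

namespace Pool.Agent.H13.FK

open Pool.Agent.H84.FK

theorem pf_nc2 (hZ6A : T_Z6A) (hZ6B : T_Z6B) (hZ7A : T_Z7A) (hZ7B : T_Z7B) (hZ9 : T_Z9)
    (hSW : T_SW) (hSYL : T_SYL) : T_NC2 := by
  intro G _ A A0 B B0 h
  by_cases hA : 2 ∣ Nat.card A0
  · by_cases hB : 2 ∣ Nat.card B0
    · obtain ⟨S, hS⟩ := hSYL G A A0 B B0 h
      obtain ⟨u, z, e, d, h6⟩ := hZ6A G A A0 B B0 S h hA hB hS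
      exact hZ6B G A A0 B B0 S u z e d h hS h6
    · obtain ⟨S, s, u, z, h7⟩ := hZ7A G A A0 B B0 h hA hB
      exact hZ7B G A A0 B B0 S s u z h hB h7
  · by_cases hB : 2 ∣ Nat.card B0
    · have h' := hSW G A A0 B B0 h
      obtain ⟨S, s, u, z, h7⟩ := hZ7A G B B0 A A0 h' hB hA
      exact hZ7B G B B0 A A0 S s u z h' hA h7
    · exact hZ9 G A A0 B B0 h hA hB

end Pool.Agent.H13.FK
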